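import Mathlib
import Pool.Agent.H17.ExactJ

/-!
# The exact value of `gap(G_{≥d})` for infinitely many `d` without a plane of order `d - 1`

For `d ≥ 2000` a connected graph of minimum degree at least `d` has gap at least `√d / (d + 1)`
if and only if it is the incidence graph of a projective plane of order `d - 1` or `d`.
Hence, if no plane of order `d - 1` exists, `gap(G_{≥d}) ≤ √d / (d + 1)`, with equality if a
plane of order `d` exists, and then the extremal graphs are the incidence graphs of the planes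
of order `d`.
-/

namespace Pool.Agent.H17.Kept.ExactMinDegree

open Pool.Agent.H17

theorem result :
    (∀ d : ℕ, 2000 ≤ d → ∀ (V : Type) [Fintype V] (G : SimpleGraph V), InMinDegree d G →
      (√(d : ℝ) / (d + 1) ≤ gap G ↔
        IsPlaneIncidenceGraph (d - 1) G ∨ IsPlaneIncidenceGraph d G)) ∧
    (∀ d : ℕ, 2000 ≤ d → ¬ PlaneExists (d - 1) →
      gapMinDegree d ≤ √(d : ℝ) / (d + 1) ∧
      (PlaneExists d → gapMinDegree d = √(d : ℝ) / (d + 1)) ∧
      ∀ (V : Type) [Fintype V] (G : SimpleGraph V), InMinDegree d G →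
        (gap G = √(d : ℝ) / (d + 1) ↔ IsPlaneIncidenceGraph d G)) ∧
    {d : ℕ | 2000 ≤ d ∧ ¬ PlaneExists (d - 1) ∧ PlaneExists d}.Infinite :=
  ⟨fun _ hd _ _ _ hG => rigidity hd hG,
    fun _ hd hno => ⟨gapMinDegree_le hd hno, gapMinDegree_eq hd hno,
      fun _ _ _ hG => gap_eq_iff_of_no_plane hd hno hG⟩,
    infinite_orders_large⟩

end Pool.Agent.H17.Kept.ExactMinDegree
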